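import Pool.Agent.RM69.Outer
import Pool.Agent.RM69.Menger

/-!
# MP_0ac51f_gt : Hurewicz's theorem for metric spaces with sigma-discretely Menger boundaries

A metric space which is a countable union of subspaces each of which has a base of open sets whose
boundaries are countable unions of discrete unions of closed Menger sets (for example locally
compact boundaries) is a countable union of subspaces of small inductive dimension at most 0, if its
small transfinite dimension exists, or if all its separable subspaces are such unions.
-/

set_option autoImplicit false

namespace Pool.Agent.Results.MP_0ac51f_gt.RimMenger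

open Set Topology Pool.Agent.RM69

universe u v

/-- `trind X ≤ α` for some ordinal `α` (small transfinite dimension exists), written out as in the
frozen statement. -/
def TrindExists (X : Type u) [MetricSpace X] : Prop :=
  ∃ α : Ordinal.{v}, ∀ P : Set X → Ordinal.{v} → Prop,
    (∀ (A : Set X) (α' : Ordinal.{v}),
      (∀ x ∈ A, ∀ U : Set X, IsOpen U → x ∈ U →
        ∃ V : Set X, IsOpen V ∧ x ∈ V ∧ V ∩ A ⊆ U ∧
          ((closure (V ∩ A) ∩ A) \ V = ∅ ∨
            ∃ β < α', P ((closure (V ∩ A) ∩ A) \ V) β)) → P A α') →
    P Set.univ α

/-- (1) If a metric space `X` is a countable union of rim-Menger subspaces and its small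
transfinite dimension exists, then it is a countable union of subspaces with `ind ≤ 0`.
(2) If a metric space `X` is a countable union of rim-Menger subspaces and every separable subset
of `X` is a countable union of subspaces with `ind ≤ 0`, then so is `X`.
(3) In particular (1) and (2) hold if every point of `X` has arbitrarily small open neighbourhoods
with locally compact boundaries. -/
theorem result :
    (∀ (X : Type u) [MetricSpace X] (M : ℕ → Set X), (⋃ i, M i) = univ →
      (∀ i, RimMenger (M i)) → TrindExists.{u, v} X → SigmaZero (univ : Set X)) ∧
    (∀ (X : Type u) [MetricSpace X] (M : ℕ → Set X), (⋃ i, M i) = univ →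
      (∀ i, RimMenger (M i)) →
      (∀ S : Set X, TopologicalSpace.IsSeparable S → SigmaZero S) → SigmaZero (univ : Set X)) ∧
    (∀ (X : Type u) [MetricSpace X],
      (∀ x : X, ∀ U : Set X, IsOpen U → x ∈ U →
        ∃ V, IsOpen V ∧ x ∈ V ∧ V ⊆ U ∧ LocallyCompactSpace (frontier V)) → RimMenger X) := by
  refine ⟨?_, ?_, ?_⟩
  · intro X _ M hM hrim htrind
    exact sigmaZero_of_cover M hM hrim (separable_of_trind htrind)
  · intro X _ M hM hrim hsep
    exact sigmaZero_of_cover M hM hrim fun S hS => hsep _ hS.isSeparable.closure
  · intro X _ h x U hU hxU
    obtain ⟨V, h1, h2, h3, h4⟩ := h x U hU hxU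
    exact ⟨V, h1, h2, h3, sdm_of_locallyCompact isClosed_frontier⟩

end Pool.Agent.Results.MP_0ac51f_gt.RimMenger
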