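import Pool.Agent.OM55.Reduction

/-!
# MP_0ac51f_gt : closed separable sets instead of points (weight aleph one)

A metric space locally of weight at most `aleph_1` is a countable union of subspaces of small
inductive dimension at most 0 if and only if its closed separable subsets have arbitrarily small
open neighbourhoods whose boundaries are such unions. If the small transfinite dimension of the
space exists, it is enough to look at its rim-separable subspaces.
-/

set_option autoImplicit false

namespace Pool.Agent.Results.MP_0ac51f_gt.SeparableSets

open Set Topology Pool.Agent.RM69 Pool.Agent.OM55 Pool.Agent.RN69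

universe u v

/-- `trind X ≤ α` for some ordinal `α` (small transfinite dimension exists), written out as in the
frozen statement. -/
def TrindExists (X : Type u) [MetricSpace X] : Prop :=
  ∃ α : Ordinal.{v}, ∀ P : Set X → Ordinal.{v} → Prop,
    (∀ (A : Set X) (α' : Ordinal.{v}),
      (∀ x ∈ A, ∀ U : Set X, IsOpen U → x ∈ U →
        ∃ V : Set X, IsOpen V ∧ x ∈ V ∧ V ∩ A ⊆ U ∧
          ((closure (V ∩ A) ∩ A) \ V = ∅ ∨
            ∃ β < α', P ((closure (V ∩ A) ∩ A) \ V) β)) → P A α') →
    P Set.univ α

/-- (1) A metric space `X` locally of weight at most `aleph_1` is a countable union of subspaces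
with `ind ≤ 0` if and only if every closed separable subset of `X` has arbitrarily small open
neighbourhoods whose boundaries are countable unions of subspaces with `ind ≤ 0`.
(2) If moreover `trind X` exists, it is enough that this holds in every rim-separable subspace `Y`
of `X`. -/
theorem result :
    (∀ (X : Type u) [MetricSpace X], LocAlephOne X →
      (SigmaZero (univ : Set X) ↔ SepSetS X)) ∧
    (∀ (X : Type u) [MetricSpace X], LocAlephOne X → TrindExists.{u, v} X →
      (SigmaZero (univ : Set X) ↔ ∀ Y : Set X, RimSep Y → SepSetS Y)) := by
  refine ⟨?_, ?_⟩
  · intro X _ hloc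
    exact sigmaZero_iff_sepSetS hloc
  · intro X _ hloc htr
    obtain ⟨α, hα⟩ := htr
    exact sigmaZero_iff_rimSep hloc hα

end Pool.Agent.Results.MP_0ac51f_gt.SeparableSets
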