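import Mathlib

/-!
# MP_0ac51f_gt : Hurewicz's theorem for countable unions of strongly metrizable spaces

A metric space which is a countable union of strongly metrizable subspaces (subspaces which embed
into `D^ω × Y`, `D` discrete of any size and `Y` separable metrizable) and which has small
transfinite dimension is a countable union of subspaces of small inductive dimension at most 0.
-/

namespace Pool.Agent.Results.MP_0ac51f_gt.StronglyMetrizable

open Set Topology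

universe u v

/-- A topological space is strongly metrizable if it embeds into the product of a countable power of
a discrete space and a separable metrizable space. -/
def IsStronglyMetrizable (M : Type u) [TopologicalSpace M] : Prop :=
  ∃ (D Y : Type u) (_ : TopologicalSpace D) (_ : TopologicalSpace Y) (f : M → (ℕ → D) × Y),
    DiscreteTopology D ∧ TopologicalSpace.MetrizableSpace Y ∧ SecondCountableTopology Y ∧
      IsEmbedding f

section

variable {X : Type u} [TopologicalSpace X]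

/-- The frontier, relative to `A`, of the relatively open set `V ∩ A`. -/
def relFr (V A : Set X) : Set X := (closure (V ∩ A) ∩ A) \ V

/-- `ind Y ≤ 0`. -/
def IndZero (Y : Set X) : Prop :=
  ∀ x ∈ Y, ∀ U : Set X, IsOpen U → x ∈ U →
    ∃ V : Set X, IsOpen V ∧ x ∈ V ∧ V ∩ Y ⊆ U ∧ closure (V ∩ Y) ∩ Y ⊆ V

/-- Countable union of subspaces with `ind ≤ 0`. -/
def SigmaZero (S : Set X) : Prop :=
  ∃ Y : ℕ → Set X, (⋃ i, Y i) = S ∧ ∀ i, IndZero (Y i)

theorem IndZero.mono {Y Z : Set X} (h : IndZero Y) (hZ : Z ⊆ Y) : IndZero Z := by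
  intro x hx U hU hxU
  obtain ⟨V, hV, hxV, h1, h2⟩ := h x (hZ hx) U hU hxU
  refine ⟨V, hV, hxV, fun y hy => h1 ⟨hy.1, hZ hy.2⟩, ?_⟩
  rintro y ⟨hy1, hy2⟩
  exact h2 ⟨closure_mono (inter_subset_inter_right V hZ) hy1, hZ hy2⟩

theorem SigmaZero.mono {S T : Set X} (h : SigmaZero S) (hT : T ⊆ S) : SigmaZero T := by
  obtain ⟨Y, hY, h0⟩ := h
  refine ⟨fun i => Y i ∩ T, ?_, fun i => (h0 i).mono inter_subset_left⟩
  rw [← iUnion_inter, hY]
  exact inter_eq_right.2 hT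

theorem SigmaZero.of_indZero {S : Set X} (h : IndZero S) : SigmaZero S :=
  ⟨fun _ => S, iUnion_const S, fun _ => h⟩

theorem indZero_empty : IndZero (∅ : Set X) := fun x hx => absurd hx (notMem_empty x)

theorem SigmaZero.iUnion {ι : Type*} [Countable ι] {S : ι → Set X} (h : ∀ i, SigmaZero (S i)) :
    SigmaZero (⋃ i, S i) := by
  choose Y hY h0 using h
  rcases isEmpty_or_nonempty ι with hι | hι
  · rw [iUnion_of_empty]
    exact SigmaZero.of_indZero indZero_empty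
  · obtain ⟨e, he⟩ := exists_surjective_nat (ι × ℕ)
    refine ⟨fun n => Y (e n).1 (e n).2, ?_, fun n => h0 _ _⟩
    ext x
    simp only [mem_iUnion]
    constructor
    · rintro ⟨n, hn⟩
      exact ⟨(e n).1, by rw [← hY]; exact mem_iUnion.2 ⟨_, hn⟩⟩
    · rintro ⟨i, hi⟩
      rw [← hY] at hi
      obtain ⟨j, hj⟩ := mem_iUnion.1 hi
      obtain ⟨n, hn⟩ := he (i, j)
      exact ⟨n, by rw [hn]; exact hj⟩

theorem SigmaZero.union {S T : Set X} (hS : SigmaZero S) (hT : SigmaZero T) :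
    SigmaZero (S ∪ T) := by
  rw [union_eq_iUnion]
  refine SigmaZero.iUnion (fun b => ?_)
  cases b
  · exact hT
  · exact hS

/-- The main step: a strongly metrizable `S` with a base of relative neighbourhoods whose
frontiers are countable unions of zero-dimensional subspaces is such a union itself. -/
theorem hurewicz_step {S M : Set X} (hSM : S ⊆ M) (hM : IsStronglyMetrizable M)
    (h : ∀ x ∈ S, ∀ U : Set X, IsOpen U → x ∈ U →
      ∃ V : Set X, IsOpen V ∧ x ∈ V ∧ V ∩ S ⊆ U ∧ SigmaZero (relFr V S)) :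
    SigmaZero S := by
  classical
  obtain ⟨D, Y, tD, tY, f, hD, -, hY, hf⟩ := hM
  obtain ⟨𝒲, hWc, -, hWb⟩ := TopologicalSpace.exists_countable_basis Y
  have hWc' : Countable 𝒲 := hWc
  -- cylinders
  let cyl : (m : ℕ) → (Fin m → D) → Set X := fun m s => {x | ∃ hx : x ∈ M, ∀ i : Fin m, (f ⟨x, hx⟩).1 i = s i}
  -- open sets of X tracing the cylinders
  have hcyl : ∀ m s, ∃ O : Set X, IsOpen O ∧ O ∩ M = cyl m s := by
    intro m s
    have h1 : IsOpen {x : M | ∀ i : Fin m, (f x).1 i = s i} := by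
      rw [ofPred_forall]
      refine isOpen_iInter_of_finite (fun i => ?_)
      have h2 : Continuous (fun x : M => (f x).1 i) :=
        (continuous_apply (i : ℕ)).comp (continuous_fst.comp hf.continuous)
      exact (isOpen_discrete {s i}).preimage h2
    obtain ⟨O, hO, hO2⟩ := isOpen_induced_iff.1 h1
    refine ⟨O, hO, ?_⟩
    ext x
    constructor
    · rintro ⟨hxO, hxM⟩
      have : (⟨x, hxM⟩ : M) ∈ Subtype.val ⁻¹' O := hxO
      rw [hO2] at this
      exact ⟨hxM, this⟩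
    · rintro ⟨hxM, hx⟩
      have : (⟨x, hxM⟩ : M) ∈ {x : M | ∀ i : Fin m, (f x).1 i = s i} := hx
      rw [← hO2] at this
      exact ⟨this, hxM⟩
  choose O hO hOM using hcyl
  -- cylinders are relatively closed
  have hclosed : ∀ m s y, y ∈ closure (cyl m s) → y ∈ M → y ∈ cyl m s := by
    intro m s y hy hyM
    refine ⟨hyM, fun i => ?_⟩
    by_contra hne
    have h2 : Continuous (fun x : M => (f x).1 (i : ℕ)) :=
      (continuous_apply (i : ℕ)).comp (continuous_fst.comp hf.continuous)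
    have h1 : IsOpen {x : M | (f x).1 i ≠ s i} := (isOpen_discrete {s i}ᶜ).preimage h2
    obtain ⟨G, hG, hG2⟩ := isOpen_induced_iff.1 h1
    have hyG : y ∈ G := by
      have : (⟨y, hyM⟩ : M) ∈ {x : M | (f x).1 i ≠ s i} := hne
      rw [← hG2] at this
      exact this
    obtain ⟨z, hzG, hzM, hz⟩ := mem_closure_iff.1 hy G hG hyG
    have : (⟨z, hzM⟩ : M) ∈ Subtype.val ⁻¹' G := hzG
    rw [hG2] at this
    exact this (hz i)
  -- basic neighbourhoods
  have hbasic : ∀ x (hx : x ∈ M) (U : Set X), IsOpen U → x ∈ U → ∀ m₀ : ℕ, ∃ m, m₀ ≤ m ∧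
      ∃ W ∈ 𝒲, (f ⟨x, hx⟩).2 ∈ W ∧ ∀ y (hy : y ∈ M),
        (∀ i : Fin m, (f ⟨y, hy⟩).1 i = (f ⟨x, hx⟩).1 i) → (f ⟨y, hy⟩).2 ∈ W → y ∈ U := by
    intro x hx U hU hxU m₀
    have h1 : IsOpen (Subtype.val ⁻¹' U : Set M) := hU.preimage continuous_subtype_val
    obtain ⟨G, hG, hG2⟩ := hf.isInducing.isOpen_iff.1 h1
    have hfx : f ⟨x, hx⟩ ∈ G := by
      have : (⟨x, hx⟩ : M) ∈ Subtype.val ⁻¹' U := hxU
      rw [← hG2] at this
      exact this
    obtain ⟨A, B, hA, hB, hxA, hxB, hAB⟩ := isOpen_prod_iff.1 hG (f ⟨x, hx⟩).1 (f ⟨x, hx⟩).2 hfx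
    obtain ⟨I, u, hu, huA⟩ := isOpen_pi_iff.1 hA _ hxA
    obtain ⟨W, hW, hxW, hWB⟩ := hWb.mem_nhds_iff.1 (hB.mem_nhds hxB)
    refine ⟨max m₀ (I.sup id + 1), le_max_left _ _, W, hW, hxW, fun y hy h3 h4 => ?_⟩
    have hyA : (f ⟨y, hy⟩).1 ∈ A := by
      apply huA
      intro i hi
      have hi' : i < max m₀ (I.sup id + 1) := by
        have : i ≤ I.sup id := Finset.le_sup (f := id) hi
        omega
      have := h3 ⟨i, hi'⟩
      simp only at this
      rw [this]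
      exact (hu i hi).2
    have : f ⟨y, hy⟩ ∈ G := hAB ⟨hyA, hWB h4⟩
    have h5 : (⟨y, hy⟩ : M) ∈ f ⁻¹' G := this
    rw [hG2] at h5
    exact h5
  -- good tuples
  let good : (p : ℕ × 𝒲 × 𝒲) → (Fin p.1 → D) → Set X → Prop := fun p s V =>
    IsOpen V ∧ (∀ x ∈ S, ∀ hx : x ∈ M, x ∈ cyl p.1 s → (f ⟨x, hx⟩).2 ∈ (p.2.1 : Set Y) → x ∈ V) ∧
      (∀ x ∈ V ∩ S, ∀ hx : x ∈ M, x ∈ cyl p.1 s ∧ (f ⟨x, hx⟩).2 ∈ (p.2.2 : Set Y)) ∧
      SigmaZero (relFr V S)
  let VV : (p : ℕ × 𝒲 × 𝒲) → (Fin p.1 → D) → Set X := fun p s =>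
    if hp : ∃ V, good p s V then hp.choose else ∅
  have hVV : ∀ p s, (∃ V, good p s V) → good p s (VV p s) := by
    intro p s hp
    have : VV p s = hp.choose := dif_pos hp
    rw [this]
    exact hp.choose_spec
  have hVVcyl : ∀ p s, ∀ x ∈ VV p s ∩ S, x ∈ cyl p.1 s := by
    intro p s x hx
    by_cases hp : ∃ V, good p s V
    · exact ((hVV p s hp).2.2.1 x hx (hSM hx.2)).1
    · have : VV p s = ∅ := dif_neg hp
      rw [this] at hx
      exact absurd hx.1 (notMem_empty x)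
  have hVVσ : ∀ p s, SigmaZero (relFr (VV p s) S) := by
    intro p s
    by_cases hp : ∃ V, good p s V
    · exact (hVV p s hp).2.2.2
    · have : VV p s = ∅ := dif_neg hp
      rw [this]
      refine SigmaZero.of_indZero ?_
      have h0 : relFr (∅ : Set X) S = ∅ := by
        simp [relFr]
      rw [h0]
      exact indZero_empty
  have hfrcyl : ∀ p s, relFr (VV p s) S ⊆ cyl p.1 s := by
    rintro p s y ⟨⟨hy1, hy2⟩, -⟩
    exact hclosed _ _ y (closure_mono (hVVcyl p s) hy1) (hSM hy2)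
  have hdisj : ∀ m (s t : Fin m → D) y, y ∈ cyl m s → y ∈ cyl m t → s = t := by
    rintro m s t y ⟨hy, hs⟩ ⟨_, ht⟩
    funext i
    rw [← hs i, ← ht i]
  let F : ℕ × 𝒲 × 𝒲 → Set X := fun p => ⋃ s : Fin p.1 → D, relFr (VV p s) S
  have hF : ∀ p, SigmaZero (F p) := by
    intro p
    choose Z hZ hZ0 using hVVσ p
    refine ⟨fun j => ⋃ s, Z s j, ?_, fun j => ?_⟩
    · rw [iUnion_comm]
      exact iUnion_congr hZ
    · have hZsub : ∀ s, Z s j ⊆ relFr (VV p s) S := fun s => by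
        rw [← hZ s]
        exact subset_iUnion (Z s) j
      intro x hx U hU hxU
      obtain ⟨s, hxs⟩ := mem_iUnion.1 hx
      obtain ⟨V, hV, hxV, h1, h2⟩ := hZ0 s j x hxs U hU hxU
      have hkey : ∀ y ∈ ⋃ s, Z s j, y ∈ cyl p.1 s → y ∈ Z s j := by
        intro y hy hys
        obtain ⟨t, hyt⟩ := mem_iUnion.1 hy
        have : t = s := hdisj _ _ _ y (hfrcyl p t (hZsub t hyt)) hys
        rw [← this]
        exact hyt
      have hMem : ∀ y ∈ ⋃ s, Z s j, y ∈ M := by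
        intro y hy
        obtain ⟨t, hyt⟩ := mem_iUnion.1 hy
        obtain ⟨hyM, _⟩ := hfrcyl p t (hZsub t hyt)
        exact hyM
      refine ⟨V ∩ O p.1 s, hV.inter (hO _ _), ⟨hxV, ?_⟩, ?_, ?_⟩
      · have : x ∈ O p.1 s ∩ M := by
          rw [hOM]
          exact hfrcyl p s (hZsub s hxs)
        exact this.1
      · rintro y ⟨⟨hyV, hyO⟩, hyZ⟩
        have hyc : y ∈ cyl p.1 s := by
          rw [← hOM]
          exact ⟨hyO, hMem y hyZ⟩
        exact h1 ⟨hyV, hkey y hyZ hyc⟩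
      · rintro y ⟨hy1, hyZ⟩
        have hsub : V ∩ O p.1 s ∩ ⋃ s, Z s j ⊆ V ∩ Z s j := by
          rintro z ⟨⟨hzV, hzO⟩, hzZ⟩
          have hzc : z ∈ cyl p.1 s := by
            rw [← hOM]
            exact ⟨hzO, hMem z hzZ⟩
          exact ⟨hzV, hkey z hzZ hzc⟩
        have hy2 : y ∈ closure (V ∩ Z s j) := closure_mono hsub hy1
        have hyc : y ∈ cyl p.1 s := by
          refine hclosed _ _ y (closure_mono ?_ hy2) (hMem y hyZ)
          rintro z ⟨_, hz⟩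
          exact hfrcyl p s (hZsub s hz)
        have hyO : y ∈ O p.1 s ∩ M := by
          rw [hOM]
          exact hyc
        exact ⟨h2 ⟨hy2, hkey y hyZ hyc⟩, hyO.1⟩
  -- the remainder
  let R : Set X := S \ ⋃ p, F p
  have hR : IndZero R := by
    intro x hx U hU hxU
    have hxM : x ∈ M := hSM hx.1
    obtain ⟨m₀, -, B, hB, hxB, hB2⟩ := hbasic x hxM U hU hxU 0
    let s₀ : Fin m₀ → D := fun i => (f ⟨x, hxM⟩).1 i
    -- an open set of X tracing [s₀] × B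
    have hBopen : IsOpen {y : M | (f y).2 ∈ B} :=
      (hWb.isOpen hB).preimage (continuous_snd.comp hf.continuous)
    obtain ⟨G, hG, hG2⟩ := isOpen_induced_iff.1 hBopen
    have hGmem : ∀ y (hy : y ∈ M), y ∈ G ↔ (f ⟨y, hy⟩).2 ∈ B := by
      intro y hy
      have : (⟨y, hy⟩ : M) ∈ Subtype.val ⁻¹' G ↔ (⟨y, hy⟩ : M) ∈ {y : M | (f y).2 ∈ B} := by
        rw [hG2]
      exact this
    have hOmem : ∀ m s y, y ∈ M → (y ∈ O m s ↔ y ∈ cyl m s) := by
      intro m s y hy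
      rw [← hOM]
      exact ⟨fun h => ⟨h, hy⟩, fun h => h.1⟩
    have hxs₀ : x ∈ O m₀ s₀ := (hOmem _ _ x hxM).2 ⟨hxM, fun i => rfl⟩
    obtain ⟨V, hV, hxV, hV1, hV2⟩ := h x hx.1 (O m₀ s₀ ∩ G) ((hO _ _).inter hG)
      ⟨hxs₀, (hGmem x hxM).2 hxB⟩
    obtain ⟨m₁, hm₁, W, hW, hxW, hW2⟩ := hbasic x hxM V hV hxV m₀
    let s₁ : Fin m₁ → D := fun i => (f ⟨x, hxM⟩).1 i
    let p : ℕ × 𝒲 × 𝒲 := (m₁, ⟨W, hW⟩, ⟨B, hB⟩)
    have hgood : ∃ V', good p s₁ V' := by
      refine ⟨V ∩ O m₁ s₁, hV.inter (hO _ _), ?_, ?_, ?_⟩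
      · rintro y hyS hyM ⟨_, hyc⟩ hyW
        exact ⟨hW2 y hyM hyc hyW, (hOmem _ _ y hyM).2 ⟨hyM, hyc⟩⟩
      · rintro y ⟨⟨hyV, hyO⟩, hyS⟩ hyM
        exact ⟨(hOmem _ _ y hyM).1 hyO, (hGmem y hyM).1 (hV1 ⟨hyV, hyS⟩).2⟩
      · refine hV2.mono ?_
        rintro y ⟨⟨hy1, hyS⟩, hy2⟩
        have hyc : y ∈ cyl m₁ s₁ := by
          refine hclosed _ _ y (closure_mono ?_ hy1) (hSM hyS)
          rintro z ⟨⟨_, hzO⟩, hzS⟩
          exact (hOmem _ _ z (hSM hzS)).1 hzO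
        refine ⟨⟨closure_mono ?_ hy1, hyS⟩, fun hyV => hy2 ⟨hyV, (hOmem _ _ y (hSM hyS)).2 hyc⟩⟩
        rintro z ⟨⟨hzV, _⟩, hzS⟩
        exact ⟨hzV, hzS⟩
    obtain ⟨g1, g2, g3, g4⟩ := hVV p s₁ hgood
    refine ⟨VV p s₁, g1, g2 x hx.1 hxM ⟨hxM, fun i => rfl⟩ hxW, ?_, ?_⟩
    · rintro y ⟨hyV, hyR⟩
      have hyM : y ∈ M := hSM hyR.1
      obtain ⟨⟨_, hyc⟩, hyB⟩ := g3 y ⟨hyV, hyR.1⟩ hyM
      refine hB2 y hyM (fun i => ?_) hyB
      exact hyc ⟨i.1, lt_of_lt_of_le i.2 hm₁⟩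
    · rintro y ⟨hy1, hyR⟩
      by_contra hyV
      refine hyR.2 (mem_iUnion.2 ⟨p, mem_iUnion.2 ⟨s₁, ⟨⟨closure_mono ?_ hy1, hyR.1⟩, hyV⟩⟩⟩)
      rintro z ⟨hzV, hzR⟩
      exact ⟨hzV, hzR.1⟩
  have hS : S ⊆ R ∪ ⋃ p, F p := by
    intro x hx
    by_cases hxF : x ∈ ⋃ p, F p
    · exact Or.inr hxF
    · exact Or.inl ⟨hx, hxF⟩
  exact ((SigmaZero.of_indZero hR).union (SigmaZero.iUnion hF)).mono hS

end

/-- A metric space `X` which is a countable union of strongly metrizable subspaces `M i` and which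
has small transfinite dimension (`trind X ≤ α` for some ordinal `α`) is a countable union of subspaces
`Y i` with `ind (Y i) ≤ 0`. -/
theorem result (X : Type u) [MetricSpace X] (M : ℕ → Set X) (hM : (⋃ i, M i) = Set.univ)
    (hSM : ∀ i, IsStronglyMetrizable (M i))
    (htrind : ∃ α : Ordinal.{v}, ∀ P : Set X → Ordinal.{v} → Prop,
      (∀ (A : Set X) (α' : Ordinal.{v}),
        (∀ x ∈ A, ∀ U : Set X, IsOpen U → x ∈ U →
          ∃ V : Set X, IsOpen V ∧ x ∈ V ∧ V ∩ A ⊆ U ∧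
            ((closure (V ∩ A) ∩ A) \ V = ∅ ∨
              ∃ β < α', P ((closure (V ∩ A) ∩ A) \ V) β)) → P A α') →
      P Set.univ α) :
    ∃ Y : ℕ → Set X, (⋃ i, Y i) = Set.univ ∧
      ∀ i, ∀ x ∈ Y i, ∀ U : Set X, IsOpen U → x ∈ U →
        ∃ V : Set X, IsOpen V ∧ x ∈ V ∧ V ∩ Y i ⊆ U ∧
          closure (V ∩ Y i) ∩ Y i ⊆ V := by
  obtain ⟨α, hα⟩ := htrind
  have key := hα (fun A _ => ∀ i, SigmaZero (A ∩ M i)) (by
    intro A α' hA i
    refine hurewicz_step (inter_subset_right) (hSM i) ?_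
    intro x hx U hU hxU
    obtain ⟨V, hV, hxV, h1, h2⟩ := hA x hx.1 U hU hxU
    refine ⟨V, hV, hxV, fun y hy => h1 ⟨hy.1, hy.2.1⟩, ?_⟩
    have hsub : relFr V (A ∩ M i) ⊆ ((closure (V ∩ A) ∩ A) \ V) ∩ M i := by
      rintro y ⟨⟨hy1, hy2⟩, hy3⟩
      refine ⟨⟨⟨closure_mono ?_ hy1, hy2.1⟩, hy3⟩, hy2.2⟩
      rintro z ⟨hz1, hz2⟩
      exact ⟨hz1, hz2.1⟩
    rcases h2 with h2 | ⟨β, -, h2⟩
    · rw [h2, empty_inter] at hsub
      exact (SigmaZero.of_indZero indZero_empty).mono hsub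
    · exact (h2 i).mono hsub)
  have h1 : SigmaZero (⋃ i, Set.univ ∩ M i) := SigmaZero.iUnion key
  have h2 : (⋃ i, Set.univ ∩ M i) = Set.univ := by
    simp only [Set.univ_inter]
    exact hM
  rw [h2] at h1
  exact h1

end Pool.Agent.Results.MP_0ac51f_gt.StronglyMetrizable
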