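import Pool.Agent.OM55.Outer

/-!
# MP_0ac51f_gt : Hurewicz's theorem for metric spaces locally of weight at most aleph one, with
non-separable boundaries

A metric space which is a countable union of subspaces, each locally of weight at most `aleph_1` and
each with a base of open sets in whose boundaries all closed separable subsets are Menger (for
example sigma-compact), is a countable union of subspaces of small inductive dimension at most 0, if
its small transfinite dimension exists, or if it has a base of open sets whose boundaries are such
unions.
-/

set_option autoImplicit false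

namespace Pool.Agent.Results.MP_0ac51f_gt.WeightAlephOne

open Set Topology Pool.Agent.RM69 Pool.Agent.OM55

universe u v

/-- `trind X ≤ α` for some ordinal `α` (small transfinite dimension exists), written out as in the
frozen statement. -/
def TrindExists (X : Type u) [MetricSpace X] : Prop :=
  ∃ α : Ordinal.{v}, ∀ P : Set X → Ordinal.{v} → Prop,
    (∀ (A : Set X) (α' : Ordinal.{v}),
      (∀ x ∈ A, ∀ U : Set X, IsOpen U → x ∈ U →
        ∃ V : Set X, IsOpen V ∧ x ∈ V ∧ V ∩ A ⊆ U ∧
          ((closure (V ∩ A) ∩ A) \ V = ∅ ∨
            ∃ β < α', P ((closure (V ∩ A) ∩ A) \ V) β)) → P A α') →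
    P Set.univ α

/-- Let the metric space `X` be the union of countably many subspaces `M i`, each locally of weight
at most `aleph_1`, and each with a base of open sets in whose boundaries (in `M i`) all closed
separable subsets are Menger. (1) If `trind X` exists then `X` is a countable union of subspaces
with `ind ≤ 0`. (2) The same conclusion holds if `X` has a base of open sets whose boundaries are
countable unions of subspaces with `ind ≤ 0`. (3) The condition on the boundaries holds for
rim-Menger spaces, and (4) for spaces in which all closed separable subsets are sigma-compact. -/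
theorem result :
    (∀ (X : Type u) [MetricSpace X] (M : ℕ → Set X), (⋃ i, M i) = univ →
      (∀ i, LocAlephOne (M i)) → (∀ i, RimSM (M i)) → TrindExists.{u, v} X →
      SigmaZero (univ : Set X)) ∧
    (∀ (X : Type u) [MetricSpace X] (M : ℕ → Set X), (⋃ i, M i) = univ →
      (∀ i, LocAlephOne (M i)) → (∀ i, RimSM (M i)) → RimS X → SigmaZero (univ : Set X)) ∧
    (∀ (X : Type u) [MetricSpace X], RimMenger X → RimSM X) ∧
    (∀ (X : Type u) [MetricSpace X],
      (∀ B : Set X, IsClosed B → TopologicalSpace.IsSeparable B →
        ∃ K : ℕ → Set X, (∀ k, IsCompact (K k)) ∧ (⋃ k, K k) = B) → RimSM X) := by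
  refine ⟨?_, ?_, ?_, ?_⟩
  · intro X _ M hM hloc hrim htr
    obtain ⟨α, hα⟩ := htr
    exact sigmaZero_union_trind M hM hloc hrim hα
  · intro X _ M hM hloc hrim hS
    exact sigmaZero_union_rimS M hM hloc hrim hS
  · intro X _ h x U hU hxU
    obtain ⟨V, h1, h2, h3, h4⟩ := h x U hU hxU
    exact ⟨V, h1, h2, h3, sepMenger_of_sdm h4⟩
  · intro X _ h x U hU hxU
    refine ⟨U, hU, hxU, subset_rfl, ?_⟩
    intro B _ hB hBs
    obtain ⟨K, hK, rfl⟩ := h B hB hBs
    exact IsMenger.iUnion fun k => isMenger_of_isCompact (hK k)

end Pool.Agent.Results.MP_0ac51f_gt.WeightAlephOne
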